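import Pool.Agent.Work.MP_50f8f6_al.Interface

/-!
# Block L1: nice actions on trees are `Good`
-/

set_option autoImplicit false

namespace FrobP
open GMet

namespace L1aux

variable {K V : Type} [Group K] [GMet V] [MulAction K V]

omit [MulAction K V] in
theorem slim0 (h0 : Hyp V 0) {x y z : V} (w : V) (hz : Bt x z y) : Bt x z w ∨ Bt w z y := by
  obtain ⟨u, hu, hd⟩ := h0.slim x y w z hz
  have : z = u := eq_of_d _ _ (by omega)
  subst this
  exact hu

omit [MulAction K V] in
theorem pp0 (h0 : Hyp V 0) {x y z z' : V} (hz : Bt x z y) (hz' : Bt x z' y)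
    (hle : d x z ≤ d x z') : d z z' + d x z = d x z' := by
  have h1 := h0.pp x y z z'
  have h2 := tri x z z'
  unfold Bt at hz hz'
  omega

omit [MulAction K V] in
theorem eq0 (h0 : Hyp V 0) {x y z z' : V} (hz : Bt x z y) (hz' : Bt x z' y)
    (hle : d x z = d x z') : z = z' := by
  have := pp0 h0 hz hz' hle.le
  exact eq_of_d _ _ (by omega)

section act

variable (hisom : ∀ (g : K) (x y : V), d (g • x) (g • y) = d x y)
include hisom

theorem d_inv (g : K) (x y : V) : d (g⁻¹ • x) y = d x (g • y) := by
  have := hisom g (g⁻¹ • x) y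
  rw [smul_inv_smul] at this
  exact this.symm

theorem d_pow_le (g : K) (x : V) : ∀ k : ℕ, d x (g ^ k • x) ≤ k * d x (g • x) := by
  intro k
  induction k with
  | zero => rw [pow_zero, one_smul, d_self]; omega
  | succ k ih =>
    have h1 := tri x (g ^ k • x) (g ^ (k + 1) • x)
    have h2 : d (g ^ k • x) (g ^ (k + 1) • x) = d x (g • x) := by
      rw [pow_succ, mul_smul, hisom]
    rw [h2] at h1
    rw [add_mul, one_mul]
    omega

omit hisom in
theorem exists_min [Nonempty V] (g : K) : ∃ x : V, ∀ y : V, d x (g • x) ≤ d y (g • y) := by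
  obtain ⟨x, hx⟩ := Nat.sInf_mem (Set.range_nonempty fun x : V => d x (g • x))
  refine ⟨x, fun y => ?_⟩
  have h1 : d x (g • x) = sInf (Set.range fun x : V => d x (g • x)) := hx
  rw [h1]
  exact Nat.sInf_le ⟨y, rfl⟩

variable (h0 : Hyp V 0)
include h0

theorem min_of_margin {g : K} {x z u : V} (hz : Bt x z u) (hD : d x (g • x) < d x z) :
    d z (g • z) ≤ d u (g • u) := by
  rcases slim0 h0 (g • x) hz with h | h
  · have := h.d_left_le
    omega
  · rcases slim0 h0 (g • u) h with h | h
    · have hgz : Bt (g • x) (g • z) (g • u) := by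
        unfold Bt at *
        rw [hisom, hisom, hisom]
        exact hz
      have e1 := hisom g z u
      have t1 := tri z u (g • u)
      have t2 := tri z (g • u) u
      have s1 := GMet.symm (g • u) u
      have s2 := GMet.symm (g • z) z
      rcases le_total (d (g • x) z) (d (g • x) (g • z)) with hle | hle
      · have h3 := pp0 h0 h hgz hle
        unfold Bt at h hgz
        omega
      · have h3 := pp0 h0 hgz h hle
        unfold Bt at h hgz
        omega
    · unfold Bt at h
      have e1 := hisom g u z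
      have t1 := tri z (g • u) (g • z)
      have s1 := GMet.symm (g • u) u
      have s2 := GMet.symm (g • u) z
      have s3 := GMet.symm u z
      omega

theorem min_mid {g : K} {x y z : V} (hz : Bt x z y) (h1 : d x (g • x) < d x z)
    (h2 : d y (g • y) < d z y) (u : V) : d z (g • z) ≤ d u (g • u) := by
  rcases slim0 h0 u hz with h | h
  · exact min_of_margin hisom h0 h h1
  · exact min_of_margin hisom h0 h.symm' (by rw [GMet.symm y z]; exact h2)

/-! ### commutation -/

theorem mid {ℓ : ℕ} {g : K} {x y u : V} (hx : d x (g • x) ≤ ℓ) (hy : d y (g • y) ≤ ℓ)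
    (hu : Bt x u y) (h1 : ℓ < d x u) (h2 : ℓ < d u y) : Bt x (g • u) y := by
  have hgu : Bt (g • x) (g • u) (g • y) := by
    unfold Bt at *
    rw [hisom, hisom, hisom]
    exact hu
  have e1 := hisom g x u
  have e2 := hisom g u y
  have s1 := GMet.symm (g • x) x
  have s2 := GMet.symm (g • y) y
  rcases slim0 h0 x hgu with h | h
  · have := h.d_left_le
    omega
  · rcases slim0 h0 y h with h | h
    · exact h
    · have := h.d_right_le
      omega

theorem shift {ℓ : ℕ} {g : K} {x y u u' : V} (hx : d x (g • x) ≤ ℓ)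
    (hu : Bt x u y) (h1 : ℓ < d x u) (hu' : Bt x u' y) (h1' : ℓ < d x u') :
    d x (g • u') + d x u = d x (g • u) + d x u' := by
  have key : ∀ a b : V, Bt x a y → ℓ < d x a → Bt x b y → d x a ≤ d x b →
      d x (g • b) + d x a = d x (g • a) + d x b := by
    intro a b ha hla hb hle
    have h3 := pp0 h0 ha hb hle
    have h4 : Bt x a b := by unfold Bt; omega
    rcases slim0 h0 (g⁻¹ • x) h4 with h | h
    · have h5 := h.d_left_le
      have h6 := d_inv hisom g x x
      rw [GMet.symm x (g⁻¹ • x)] at h5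
      omega
    · unfold Bt at h
      rw [d_inv hisom, d_inv hisom] at h
      omega
  rcases le_total (d x u) (d x u') with h | h
  · exact key u u' hu h1 hu' h
  · have := key u' u hu' h1' hu h
    omega

theorem ac0 (hfix2 : ∀ (g : K) (x y : V), g ≠ 1 → g • x = x → g • y = y → d x y ≤ 1)
    {ℓ : ℕ} {g h : K} {x y : V} (hgx : d x (g • x) ≤ ℓ) (hgy : d y (g • y) ≤ ℓ)
    (hhx : d x (h • x) ≤ ℓ) (hhy : d y (h • y) ≤ ℓ) (hxy : 4 * ℓ + 4 ≤ d x y) :
    g * h = h * g := by
  have key : ∀ u : V, Bt x u y → 2 * ℓ < d x u → 2 * ℓ < d u y →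
      g • h • u = h • g • u := by
    intro u hu hu1 hu2
    have hg1 := mid hisom h0 hgx hgy hu (by omega) (by omega)
    have hh1 := mid hisom h0 hhx hhy hu (by omega) (by omega)
    have hb : ∀ k : K, d x (k • x) ≤ ℓ → d x (k • u) ≤ d x u + ℓ ∧ d x u ≤ d x (k • u) + ℓ := by
      intro k hk
      have t1 := tri (k⁻¹ • x) x u
      have t2 := tri x (k⁻¹ • x) u
      have s1 := GMet.symm x (k⁻¹ • x)
      have s2 := d_inv hisom k x x
      have s3 := d_inv hisom k x u
      omega
    have hg2 := hb g hgx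
    have hh2 := hb h hhx
    have hu' := hu
    have hg1' := hg1
    have hh1' := hh1
    unfold Bt at hu' hg1' hh1'
    have hgh := mid hisom h0 hgx hgy hh1 (by omega) (by omega)
    have hhg := mid hisom h0 hhx hhy hg1 (by omega) (by omega)
    apply eq0 h0 hgh hhg
    have e1 := shift hisom h0 hgx hu (by omega) hh1 (by omega)
    have e2 := shift hisom h0 hhx hu (by omega) hg1 (by omega)
    omega
  obtain ⟨u, hu, hu1⟩ := exists_bt x y (k := 2 * ℓ + 1) (by omega)
  obtain ⟨v, hv, hv1⟩ := exists_bt x y (k := 2 * ℓ + 3) (by omega)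
  have hu' := hu
  have hv' := hv
  unfold Bt at hu' hv'
  have k1 := key u hu (by omega) (by omega)
  have k2 := key v hv (by omega) (by omega)
  have huv := pp0 h0 hu hv (by omega)
  by_contra hne
  have hc : (h * g)⁻¹ * (g * h) ≠ 1 := by
    intro h1
    apply hne
    rw [inv_mul_eq_one] at h1
    exact h1.symm
  have hcu : ∀ w : V, g • h • w = h • g • w → ((h * g)⁻¹ * (g * h)) • w = w := by
    intro w hw
    rw [mul_smul, mul_smul, hw, ← mul_smul h g w, inv_smul_smul]
  have := hfix2 _ u v hc (hcu u k1) (hcu v k2)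
  omega

/-! ### loxodromic elements -/

variable (hpar : ∀ x y z : V, Even (d x y + d y z + d z x))
  (hinv : ∀ (g : K) (x : V), d x (g • x) = 1 → g • g • x ≠ x)
include hpar hinv

theorem double {g : K} {x : V} (hmin : ∀ y : V, d x (g • x) ≤ d y (g • y))
    (hm : 1 ≤ d x (g • x)) : d x (g • g • x) = 2 * d x (g • x) := by
  by_contra hne
  have e1 : d (g • x) (g • g • x) = d x (g • x) := hisom g x (g • x)
  have t1 := tri x (g • x) (g • g • x)
  obtain ⟨q, hq⟩ := hpar x (g • x) (g • g • x)
  have s1 := GMet.symm (g • g • x) x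
  obtain ⟨z, hz, hz1⟩ := exists_bt (g • x) (g • g • x) (k := 1) (by omega)
  have h1 := h0.h1 hz x
  have hz' := hz
  unfold Bt at hz'
  have t2 := tri x z (g • x)
  have s2 := GMet.symm z (g • x)
  have hb : Bt x z (g • x) := by unfold Bt; omega
  have hgb : Bt (g • x) (g • z) (g • g • x) := by
    unfold Bt at *
    rw [hisom, hisom, hisom]
    exact hb
  have e2 := hisom g x z
  unfold Bt at hb
  rcases Nat.lt_or_ge 1 (d x (g • x)) with h | h
  · have h3 := pp0 h0 hz hgb (by omega)
    have h4 := hmin z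
    omega
  · have hzx : x = z := eq_of_d _ _ (by omega)
    have hzg : z = g • g • x := eq_of_d _ _ (by omega)
    exact hinv g x (by omega) (hzg.symm.trans hzx.symm)

theorem powers {g : K} {x : V} (hmin : ∀ y : V, d x (g • x) ≤ d y (g • y))
    (hm : 1 ≤ d x (g • x)) (k : ℕ) : d x (g ^ k • x) = k * d x (g • x) ∧
      d x (g ^ (k + 1) • x) = (k + 1) * d x (g • x) := by
  induction k with
  | zero => rw [pow_zero, one_smul, d_self, zero_add, pow_one]; omega
  | succ k ih =>
    refine ⟨ih.2, ?_⟩
    have hdbl := double hisom h0 hpar hinv hmin hm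
    have h1 := h0 x (g ^ (k + 1) • x) (g ^ k • x) (g ^ (k + 2) • x)
    have e1 : d (g ^ k • x) (g ^ (k + 2) • x) = 2 * d x (g • x) := by
      rw [pow_add, mul_smul, hisom, pow_two, mul_smul, hdbl]
    have e2 : d (g ^ (k + 1) • x) (g ^ (k + 2) • x) = d x (g • x) := by
      rw [show k + 2 = (k + 1) + 1 by ring, pow_succ g (k + 1), mul_smul, hisom]
    have e3 : d (g ^ (k + 1) • x) (g ^ k • x) = d x (g • x) := by
      rw [GMet.symm, pow_succ, mul_smul, hisom]
    have t1 := tri x (g ^ (k + 1) • x) (g ^ (k + 2) • x)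
    rw [ih.1, ih.2, e1, e2, e3] at h1
    rw [ih.2, e2] at t1
    have hk : k + 1 + 1 = k + 2 := by ring
    rw [hk]
    set m := d x (g • x) with hmdef
    set a := d x (g ^ (k + 2) • x) with hadef
    have hk1 : (k + 1) * m = k * m + m := by ring
    have hk2 : (k + 1 + 1) * m = k * m + 2 * m := by ring
    rw [hk1] at h1 t1
    rw [hk2]
    omega

theorem lox_bound {g : K} {x : V} (hmin : ∀ y : V, d x (g • x) ≤ d y (g • y))
    (hm : 1 ≤ d x (g • x)) (y : V) (j : ℕ) : j * d x (g • x) ≤ d y (g ^ j • y) := by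
  set m := d x (g • x) with hmdef
  set D := d y (g ^ j • y) with hD
  set k := 2 * d x y + 1 with hk
  have h1 := (powers hisom h0 hpar hinv hmin hm (j * k)).1
  have h2 : d y (g ^ (j * k) • y) ≤ k * D := by
    rw [pow_mul]
    exact d_pow_le hisom (g ^ j) y k
  have t1 := tri x y (g ^ (j * k) • x)
  have t2 := tri y (g ^ (j * k) • y) (g ^ (j * k) • x)
  have e1 := hisom (g ^ (j * k)) y x
  have s1 := GMet.symm y x
  by_contra hlt
  have h3 : D + 1 ≤ j * m := by omega
  have h4 : k * (D + 1) ≤ k * (j * m) := Nat.mul_le_mul_left k h3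
  have h5 : j * k * m = k * (j * m) := by ring
  rw [← hmdef, h5] at h1
  have h6 : k * (D + 1) = k * D + k := by ring
  omega

theorem l6 {g : K} {z w : V} (hz : ∀ y : V, d z (g • z) ≤ d y (g • y))
    (hw : ∀ y : V, d w (g • w) ≤ d y (g • y)) (hm : 1 ≤ d z (g • z)) :
    ∃ k : ℤ, 2 * d (g ^ k • z) w ≤ d z (g • z) := by
  obtain ⟨k, hk⟩ := Nat.sInf_mem (Set.range_nonempty fun k : ℤ => d (g ^ k • z) w)
  have hkmin : ∀ j : ℤ, d (g ^ k • z) w ≤ d (g ^ j • z) w := by
    intro j
    have h1 : d (g ^ k • z) w = sInf (Set.range fun k : ℤ => d (g ^ k • z) w) := hk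
    rw [h1]
    exact Nat.sInf_le ⟨j, rfl⟩
  refine ⟨k, ?_⟩
  have hp1 : g ^ (1 + k) • z = g • g ^ k • z := by
    rw [zpow_add, zpow_one, mul_smul]
  have hp2 : g ^ (-1 + k) • z = g⁻¹ • g ^ k • z := by
    rw [zpow_add, zpow_neg_one, mul_smul]
  have hk1 := hkmin (1 + k)
  have hk2 := hkmin (-1 + k)
  rw [hp1] at hk1
  rw [hp2] at hk2
  have hcom : g • g ^ k • z = g ^ k • g • z := by
    rw [← mul_smul, ← mul_smul, (Commute.self_zpow g k).eq]
  have e0 : d (g ^ k • z) (g • g ^ k • z) = d z (g • z) := by rw [hcom, hisom]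
  set z' := g ^ k • z with hz'
  have hmin' : ∀ y : V, d z' (g • z') ≤ d y (g • y) := by
    intro y; rw [e0]; exact hz y
  have hdbl := double hisom h0 hpar hinv hmin' (by omega)
  have h1 := h0 w z' (g • z') (g⁻¹ • z')
  have h2 := h0 w (g • z') z' (g • w)
  have e1 : d (g • z') (g⁻¹ • z') = d z' (g • g • z') := by
    rw [GMet.symm, d_inv hisom]
  have e2 : d z' (g⁻¹ • z') = d z' (g • z') := by
    rw [GMet.symm, d_inv hisom]
  have e3 : d (g • z') (g • w) = d z' w := hisom g z' w
  have e4 := d_inv hisom g z' w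
  have e5 : d w (g • w) = d z (g • z) := le_antisymm (hw z) (hz w)
  have s1 := GMet.symm w z'
  have s2 := GMet.symm w (g • z')
  have s3 := GMet.symm w (g⁻¹ • z')
  have s4 := GMet.symm (g • z') z'
  omega

end act

end L1aux

open L1aux in
theorem treeGood : TreeGoodStmt := by
  intro K V _ _ _ p hp hp3 hne hisom h0 hpar hinv hfix2 hfp hcyc δ ℓ A r hr hA
  have hfixpt : ∀ (g : K) (x : V), d x (g • x) = 0 → g • x = x :=
    fun g x h => (eq_of_d _ _ h).symm
  -- elements commuting with a loxodromic element have no fixed points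
  have hcomm_lox : ∀ (g u : K), (∀ y : V, 1 ≤ d y (g • y)) → g * u = u * g → u ≠ 1 →
      ∀ y : V, 1 ≤ d y (u • y) := by
    intro g u hg hgu hu y
    by_contra hlt
    have h1 : u • y = y := hfixpt u y (by omega)
    obtain ⟨x, hx⟩ := exists_min (V := V) g
    have hfix : ∀ z : V, u • z = z → u • (g • z) = g • z := by
      intro z hz
      rw [← mul_smul, ← hgu, mul_smul, hz]
    have h2 := hfix y h1
    have h3 := hfix (g • y) h2
    have h4 := lox_bound hisom h0 hpar hinv hx (hg x) y 2
    have h5 := hfix2 u y (g • g • y) hu h1 h3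
    rw [pow_two, mul_smul] at h4
    have h6 := hg x
    omega
  have hlox : ∀ g : K, (∀ y : V, 1 ≤ d y (g • y)) → ∀ (y : V) (j : ℕ), j ≤ d y (g ^ j • y) := by
    intro g hg y j
    obtain ⟨x, hx⟩ := exists_min (V := V) g
    have h4 := lox_bound hisom h0 hpar hinv hx (hg x) y j
    exact (Nat.le_mul_of_pos_right j (hg x)).trans h4
  refine ⟨hne, hisom, ?_, ?_, ?_, ?_, ?_⟩
  · -- hyp
    intro x y z w
    have := h0 x y z w
    omega
  · -- dich
    intro g
    by_cases hfix : ∃ x : V, g • x = x
    · left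
      obtain ⟨x, hx⟩ := hfix
      refine ⟨hfp g x hx, x, fun k => ?_⟩
      have h1 := d_pow_le hisom g x k
      rw [hx, d_self, mul_zero] at h1
      omega
    · right
      have hg : ∀ y : V, 1 ≤ d y (g • y) := by
        intro y
        by_contra hlt
        exact hfix ⟨y, hfixpt g y (by omega)⟩
      intro x m
      exact (hlox g hg x m).trans (Nat.le_mul_of_pos_left _ hr)
  · -- cb
    intro g hg x y hx hy
    rcases Nat.lt_or_ge (d x y) (2 * ℓ + 2) with hlt | hge
    · refine ⟨0, ?_⟩
      rw [zpow_zero, one_smul]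
      omega
    · obtain ⟨z, hz, hz1⟩ := exists_bt x y (k := ℓ + 1) (by omega)
      obtain ⟨w, hw, hw1⟩ := exists_bt' x y (k := ℓ + 1) (by omega)
      have hz' := hz
      have hw' := hw
      unfold Bt at hz' hw'
      have mz := min_mid hisom h0 (g := g) hz (by omega) (by omega)
      have mw := min_mid hisom h0 (g := g) hw (by omega) (by omega)
      rcases Nat.eq_zero_or_pos (d z (g • z)) with h | h
      · refine ⟨0, ?_⟩
        rw [zpow_zero, one_smul]
        have h1 := mw z
        have h2 := hfix2 g z w hg (hfixpt g z h) (hfixpt g w (by omega))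
        have t1 := tri x z y
        have t2 := tri z w y
        omega
      · obtain ⟨k, hk⟩ := l6 hisom h0 hpar hinv mz mw h
        refine ⟨k, ?_⟩
        have h1 := mz x
        have e1 := hisom (g ^ k) x z
        have t1 := tri (g ^ k • x) (g ^ k • z) y
        have t2 := tri (g ^ k • z) w y
        omega
  · -- ac
    intro g h _ _ x y hgx hgy hhx hhy hxy
    exact ac0 hisom h0 hfix2 hgx hgy hhx hhy (hA.trans hxy)
  · -- cen
    intro g hg _
    by_cases hfix : ∃ x : V, g • x = x
    · obtain ⟨x, hx⟩ := hfix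
      refine ⟨⟨g, Subgroup.mem_centralizer_singleton_iff.2 rfl⟩, ?_⟩
      rintro ⟨u, hu⟩
      rw [Subgroup.mem_centralizer_singleton_iff] at hu
      have hfixu : ∀ z : V, g • z = z → g • (u • z) = u • z := by
        intro z hz
        rw [← mul_smul, ← hu, mul_smul, hz]
      have h1 := hfixu x hx
      have h2 := hfixu _ h1
      have h3 := hfix2 g x (u • x) hg hx h1
      have h4 := hfix2 g x (u • u • x) hg hx h2
      have hux : u • x = x := by
        apply hfixpt
        by_contra hne'
        have h5 : d x (u • x) = 1 := by omega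
        have h6 := hinv u x h5
        obtain ⟨q, hq⟩ := hpar x (u • x) (u • u • x)
        rw [hisom, GMet.symm (u • u • x) x] at hq
        exact h6 (eq_of_d _ _ (by omega)).symm
      obtain ⟨k, hk⟩ := hcyc g u x hg hx hux hu.symm
      exact ⟨k, Subtype.ext hk⟩
    · have hgl : ∀ y : V, 1 ≤ d y (g • y) := by
        intro y
        by_contra hlt
        exact hfix ⟨y, hfixpt g y (by omega)⟩
      -- the centralizer is abelian
      have hab : ∀ u v : K, g * u = u * g → g * v = v * g → u * v = v * u := by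
        intro u v hu hv
        obtain ⟨x⟩ := hne
        set D := max (d x (u • x)) (d x (v • x)) with hD
        have hcomm : ∀ (w : K) (n : ℕ), g * w = w * g →
            d (g ^ n • x) (w • g ^ n • x) = d x (w • x) := by
          intro w n hw
          have h1 : w • g ^ n • x = g ^ n • w • x := by
            rw [← mul_smul, ← mul_smul]
            have : Commute g w := hw
            rw [(this.pow_left n).eq]
          rw [h1, hisom]
        refine ac0 hisom h0 hfix2 (ℓ := D) (x := x) (y := g ^ (4 * D + 4) • x) (by omega) ?_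
          (by omega) ?_ (hlox g hgl x _)
        · rw [hcomm u _ hu]; omega
        · rw [hcomm v _ hv]; omega
      -- an element of the centralizer of minimal displacement
      have hex : ∃ n : ℕ, ∃ u : K, u ≠ 1 ∧ g * u = u * g ∧ ∃ x : V, d x (u • x) = n := by
        obtain ⟨x⟩ := hne
        exact ⟨_, g, hg, rfl, x, rfl⟩
      classical
      obtain ⟨e, he1, heg, x, hx⟩ := Nat.find_spec hex
      have hmin : ∀ (u : K) (y : V), u ≠ 1 → g * u = u * g → d x (e • x) ≤ d y (u • y) := by
        intro u y hu hgu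
        rw [hx]
        exact Nat.find_min' hex ⟨u, hu, hgu, y, rfl⟩
      have hel := hcomm_lox g e hgl heg he1
      refine ⟨⟨e, Subgroup.mem_centralizer_singleton_iff.2 heg.symm⟩, ?_⟩
      rintro ⟨u, hu⟩
      rw [Subgroup.mem_centralizer_singleton_iff] at hu
      have heu : e * u = u * e := hab e u heg hu.symm
      have hux : ∀ y : V, d (u • x) (e • u • x) ≤ d y (e • y) := by
        intro y
        rw [← mul_smul, heu, mul_smul, hisom]
        exact hmin e y he1 heg
      obtain ⟨k, hk⟩ := l6 hisom h0 hpar hinv (fun y => hmin e y he1 heg) hux (hel x)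
      refine ⟨k, Subtype.ext ?_⟩
      change e ^ k = u
      by_contra hne'
      have hne2 : (e ^ k)⁻¹ * u ≠ 1 := by
        intro h1
        rw [inv_mul_eq_one] at h1
        exact hne' h1
      have hcg : g * ((e ^ k)⁻¹ * u) = (e ^ k)⁻¹ * u * g := by
        have c1 : Commute g e := heg
        have c2 : Commute g u := hu.symm
        exact ((c1.zpow_right k).inv_right.mul_right c2).eq
      have h1 := hmin _ x hne2 hcg
      have h2 : d x (((e ^ k)⁻¹ * u) • x) = d (e ^ k • x) (u • x) := by
        rw [mul_smul, GMet.symm, d_inv hisom, GMet.symm]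
      have h3 := hel x
      omega

end FrobP
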