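import Pool.Agent.Work.MP_50f8f6_al.Repro

/-!
# Block J-STEP: choice of the constants, the step theorem from the reproduction of the class
-/

set_option autoImplicit false

namespace FrobP
open GMet

/-- the reproduction statement (blocks J-DICH, J-CB, J-AC, J-CEN) -/
def RepStmt : Prop := ∀ (G V : Type) [Group G] [GMet V] [MulAction G V] [IsomAct G V]
  (δ ℓ A r p c K0 ρ R θ τ : ℕ) (hρ : 1 ≤ ρ) (hR : 1 ≤ R),
  JH G V δ ℓ A r p c K0 ρ R θ τ hρ hR →
  Good δ ℓ A r p (G ⧸ (NN (fun E : Ax G V δ => HAx p δ E)))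
    (QM (NN (fun E : Ax G V δ => HAx p δ E)) (Cone (axCone G V δ ρ R hρ hR)))

namespace StepAux

theorem base_contract {V ι : Type} [GMet V] (C : ConeData V ι) (hR2 : 2 ≤ C.R) :
    ∀ (n : ℕ) (x y : V), d x y = n → 2 * d (Cone.base C x) (Cone.base C y) ≤ n + 1 := by
  intro n
  induction n using Nat.strong_induction_on with
  | _ n ih =>
    intro x y h
    rcases Nat.lt_or_ge n 2 with hn | hn
    · have h1 : d (Cone.base C x) (Cone.base C y) ≤ 1 :=
        Cone.d_le_one_of_edge (CV.Edge.base x y (by omega))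
      rcases Nat.eq_zero_or_pos n with h0 | h0
      · have hxy : x = y := eq_of_d x y (by omega)
        subst hxy
        rw [d_self]
        omega
      · omega
    · obtain ⟨z, hz1, hz2⟩ := geo x y 2 (by omega)
      have h1 : d (Cone.base C x) (Cone.base C z) ≤ 1 :=
        Cone.d_le_one_of_edge (CV.Edge.base x z (by omega))
      have h2 := ih (n - 2) (by omega) z y (by omega)
      have h3 := tri (Cone.base C x) (Cone.base C z) (Cone.base C y)
      omega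

end StepAux

theorem stepStmt (hS1 : S1Stmt) (hS2 : S2Stmt) (hS3a : S3aStmt) (hS3b : S3bStmt) (hS3c : S3cStmt)
    (hS3d : S3dStmt) (hC : ClassStmt) (hA : AxesStmt) (hrep : RepStmt) : StepStmt := by
  obtain ⟨s, K, K0, hS1⟩ := hS1
  obtain ⟨K2, hS2⟩ := hS2
  obtain ⟨c1, hC⟩ := hC
  obtain ⟨c2, hA⟩ := hA
  -- constants
  obtain ⟨δ, hδ⟩ : ∃ δ, δ = 3 * s + 1 := ⟨_, rfl⟩
  obtain ⟨ℓ, hℓ⟩ : ∃ ℓ, ℓ = 200 * δ := ⟨_, rfl⟩
  obtain ⟨c, hc⟩ : ∃ c, c = c1 + c2 := ⟨_, rfl⟩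
  obtain ⟨ρ, hρ⟩ : ∃ ρ, ρ = 16 * (ℓ + 2 * δ + 2) := ⟨_, rfl⟩
  obtain ⟨A, hAdef⟩ : ∃ A, A = 6 * ρ + 8 + 2 * (c * ((ℓ + 2 * δ) * 2 ^ ρ + 1)) + 4 * ℓ + 4 + δ :=
    ⟨_, rfl⟩
  obtain ⟨θ, hθ⟩ : ∃ θ, θ = c2 * A := ⟨_, rfl⟩
  obtain ⟨R, hRdef⟩ : ∃ R, R = K * θ + A + 36 * θ + 2 := ⟨_, rfl⟩
  obtain ⟨Q, hQ⟩ : ∃ Q, Q = c * ((ℓ + 2 * δ) * (2 ^ ρ * R) + 152 * δ + 36 * θ + A) + 8 * θ :=
    ⟨_, rfl⟩
  obtain ⟨τ, hτ⟩ : ∃ τ, τ = (2 * (ℓ + 2 * δ) + 2) * (2 ^ ρ * R) + Q + 5 * (K0 * (2 ^ ρ * R)) +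
    17 * θ + K2 * θ + 22 := ⟨_, rfl⟩
  obtain ⟨r, hr⟩ : ∃ r, r = Q + 2 * (K0 * (2 ^ ρ * R)) + 2 ^ ρ * R + 1 := ⟨_, rfl⟩
  have hρ1 : 1 ≤ ρ := by omega
  have hR1 : 1 ≤ R := by omega
  refine ⟨δ, ℓ, A, r, r * (4 * τ) + 3, by omega, by omega, by omega, by omega, ?_⟩
  intro p hp hp0 G V _ _ _ good
  have : IsomAct G V := ⟨good.isom⟩
  have hp3 : 3 ≤ p := by omega
  have hδA : δ ≤ A := by omega
  obtain ⟨hCcb, hCac, hCcen⟩ := hC δ ℓ A r p G V (by omega) (by omega) hδA hp hp3 good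
  obtain ⟨hAfam, hAfar, hAsmall, hAcent, hAnorm, hApow, hAbig⟩ :=
    hA δ ℓ A r p G V (by omega) (by omega) hδA hp hp3 good
  have hfam : Fam (axCone G V δ ρ R hρ1 hR1) θ := by rw [hθ]; exact hAfam ρ R hρ1 hR1
  have hKR : K * θ ≤ (axCone G V δ ρ R hρ1 hR1).R := by
    change K * θ ≤ R
    omega
  obtain ⟨hslim, hE2⟩ := hS1 V (Ax G V δ) (axCone G V δ ρ R hρ1 hR1) θ hfam hKR
  have hrot : Rot G (axCone G V δ ρ R hρ1 hR1) (fun E : Ax G V δ => HAx p δ E) θ (4 * τ) := by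
    refine ⟨hfam, fun g i h hh => HAx_conj p δ g i h hh, fun i h hh => ?_, fun i h hh h1 x => ?_⟩
    · rw [hAnorm]
      obtain ⟨e, he, rfl⟩ := (hApow i h).1 hh
      exact Subgroup.pow_mem _ he p
    · exact hAbig (4 * τ) i h (by omega) hh h1 x
  have hred : AllRed (axCone G V δ ρ R hρ1 hR1) (fun E : Ax G V δ => HAx p δ E) τ := by
    have h1 := hS2 G V (Ax G V δ) (axCone G V δ ρ R hρ1 hR1) (fun E : Ax G V δ => HAx p δ E) θ
      (4 * τ) hrot (by omega)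
    rwa [Nat.mul_div_cancel_left τ (by norm_num)] at h1
  have hslimQ := hS3a G V (Ax G V δ) (axCone G V δ ρ R hρ1 hR1) (fun E : Ax G V δ => HAx p δ E)
    θ (4 * τ) τ s K0 hrot hred hE2 hslim (by
      change 4 * (K0 * (2 ^ ρ * R)) < τ
      omega)
  have hdisp := hS3c G V (Ax G V δ) (axCone G V δ ρ R hρ1 hR1) (fun E : Ax G V δ => HAx p δ E)
    θ (4 * τ) τ hrot hred
  have hgood' := hrep G V δ ℓ A r p c K0 ρ R θ τ hρ1 hR1
    { good := good
      fam := hfam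
      e2 := hE2
      hyp' := by rw [hδ]; rw [hδ] at hslimQ; exact hslimQ.hyp
      stabN := hS3b G V (Ax G V δ) (axCone G V δ ρ R hρ1 hR1) (fun E : Ax G V δ => HAx p δ E)
        θ (4 * τ) τ hrot hred (by omega)
      disp := hdisp
      sa := hS3d G V (Ax G V δ) (axCone G V δ ρ R hρ1 hR1) (fun E : Ax G V δ => HAx p δ E)
        θ (4 * τ) τ K0 hrot hred hE2
      cb := by
        intro D g hg x y hx hy
        obtain ⟨k, hk⟩ := hCcb D g hg x y hx hy
        refine ⟨k, hk.trans (Nat.mul_le_mul_right _ (by omega))⟩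
      gac := by
        intro D g h hg hh x y h1 h2 h3 h4 h5
        refine hCac D g h hg hh x y h1 h2 h3 h4 (le_trans (Nat.mul_le_mul_right _ (by omega)) h5)
      zc := hCcen
      far := by
        intro D E e he he1 u hu
        obtain ⟨y, hy, hy2⟩ := hAfar D E e he he1 u hu
        exact ⟨y, hy, hy2.trans (Nat.mul_le_mul_right _ (by omega))⟩
      small := hAsmall
      cent := hAcent
      norm := hAnorm
      pow := hApow
      hp := hp
      hδ := by omega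
      hℓ := hℓ
      hρℓ := by omega
      hRA := by omega
      hRθ := by omega
      hA := by omega
      hτ1 := by omega
      hτ2 := by omega
      hr := by omega }
  have hker : ∀ g : G, QuotientGroup.mk' (NN (fun E : Ax G V δ => HAx p δ E)) g = 1 →
      g ∈ NN (fun E : Ax G V δ => HAx p δ E) := by
    intro g hg
    rwa [QuotientGroup.mk'_apply, QuotientGroup.eq_one_iff] at hg
  refine ⟨G ⧸ (NN (fun E : Ax G V δ => HAx p δ E)),
    QM (NN (fun E : Ax G V δ => HAx p δ E)) (Cone (axCone G V δ ρ R hρ1 hR1)), inferInstance,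
    inferInstance, inferInstance, QuotientGroup.mk' (NN (fun E : Ax G V δ => HAx p δ E)),
    fun x => QM.mk (NN (fun E : Ax G V δ => HAx p δ E)) (Cone.base (axCone G V δ ρ R hρ1 hR1) x),
    QuotientGroup.mk'_surjective _, hgood', ?_, ?_, ?_, ?_, ?_⟩
  · intro g x
    rfl
  · intro x y
    have h1 := QM.d_mk_le (NN (fun E : Ax G V δ => HAx p δ E))
      (Cone.base (axCone G V δ ρ R hρ1 hR1) x) (Cone.base (axCone G V δ ρ R hρ1 hR1) y)
    have h2 := StepAux.base_contract (axCone G V δ ρ R hρ1 hR1)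
      (by change 2 ≤ R; omega) _ x y rfl
    exact le_trans (Nat.mul_le_mul_left 2 h1) h2
  · intro g hg hg1 x
    have := hdisp g (hker g hg) hg1 x
    omega
  · intro g x hx
    rw [← map_pow, QuotientGroup.mk'_apply, QuotientGroup.eq_one_iff]
    by_cases hgp : g ^ p = 1
    · rw [hgp]; exact Subgroup.one_mem _
    · obtain ⟨E, hE⟩ := hAsmall g hgp ⟨x, by omega⟩
      exact Subgroup.subset_closure (Set.mem_iUnion.2 ⟨E, (hApow E _).2 ⟨g, hE, rfl⟩⟩)
  · intro g hg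
    have h1 := hker g hg
    have h2 : NN (fun E : Ax G V δ => HAx p δ E) ≤
        Subgroup.closure (Set.range fun x : G => x ^ p) := by
      unfold NN
      rw [Subgroup.closure_le]
      intro h hh
      obtain ⟨E, hE⟩ := Set.mem_iUnion.1 hh
      obtain ⟨e, _, rfl⟩ := (hApow E h).1 hE
      exact Subgroup.subset_closure ⟨e, rfl⟩
    exact h2 h1

end FrobP
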